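import Pool.Agent.H78.UN2.Fin

/-! The choice of the parameters for derivations with little persistent memory. -/

namespace Pool.Agent.H78.UP

open Finset Pool.Agent.H78.UN Pool.Agent.H78.UN2

/-- The constants. -/
def pLam (A j : ℕ) : ℕ := 2 ^ (4 * (2 * pd A j) + 6) * (9 * A)
def pBc (A j : ℕ) : ℕ := 45 * A + 12 * pd A j * pLam A j
def pC (A j : ℕ) : ℕ := 216 * A + pBc A j + 1
def pT2 (A j C0 : ℕ) : ℕ := pT A j C0 + 400 * (j * A ^ 2 * pC A j)

theorem pLam_two {A j : ℕ} (hA : 1 ≤ A) : 3 ≤ pLam A j := by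
  unfold pLam
  have h : 1 ≤ 2 ^ (4 * (2 * pd A j) + 6) := Nat.one_le_two_pow
  nlinarith

theorem lam_cond {A j C0 T n k : ℕ} (hA : 1 ≤ A) (hj : 1 ≤ j) (hT : pT A j C0 ≤ T) (hn : 2 ≤ n)
    (hk1 : 2 ^ T * Nat.log 2 n ≤ k) (hk2 : 2 ^ T * k ≤ n) :
    2 ^ (4 * (2 * pd A j) + 6) * (k * pp A n k) ≤ pLam A j * n := by
  obtain ⟨h1, hbig, hTT, hkK, hp1, hp2, hbH, hbC, hl3, hl1, hl2⟩ := facts hA hj hT hn hk1 hk2
  calc 2 ^ (4 * (2 * pd A j) + 6) * (k * pp A n k)
      = 2 ^ (4 * (2 * pd A j) + 6) * (pp A n k * k) := by ring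
    _ ≤ 2 ^ (4 * (2 * pd A j) + 6) * (9 * A * n) := Nat.mul_le_mul_left _ hp2
    _ = pLam A j * n := by unfold pLam; ring

/-- Natural number bounds for the refutation parameters. -/
theorem boundsP {A j C0 T n k B q s D : ℕ} (hA : 1 ≤ A) (hj : 1 ≤ j) (hT : pT2 A j C0 ≤ T)
    (hn : 2 ≤ n)
    (hk1 : 2 ^ T * Nat.log 2 n ≤ k) (hk2 : 2 ^ T * k ≤ n) (hB : 2 ≤ B) (hq : 2 ^ T * q ≤ n)
    (hs : 2 ^ T * s ≤ n) (hBk : 2 ^ T * Nat.log 2 B ≤ k)
    (hD : 2 ^ T * (D * Nat.log 2 B) ≤ n * k) :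
    ∃ t m b f : ℕ, 1 ≤ t ∧ 1 ≤ m ∧ D ≤ m * t ∧ q ≤ n / pH A j ∧
      A * ((Nat.log 2 B + 1) * t) ≤ n ∧ t ≤ n ∧ j * A * f ≤ n ∧
      pp A n k * pr A j k + pLam A j * f + pp A n k * (2 * pl A j k - 1) ≤
        b * (2 * pl A j k - 1) ∧
      s + m * (kap (pr A j k) (pl A j k) * pp A n k + b) +
        kap (pr A j k) (pl A j k) * pp A n k + kap (pr A j k) (pl A j k) * q ≤ f := by
  have hT1 : pT A j C0 ≤ T := (Nat.le_add_right _ _).trans hT
  have hT2 : 400 * (j * A ^ 2 * pC A j) ≤ T := (Nat.le_add_left _ _).trans hT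
  have hkap := kap_le hA hj hT1 hn hk1 hk2
  obtain ⟨h1, hbig, hTT, hkK, hp1, hp2, hbH, hbC, hl3, hl1, hl2⟩ := facts hA hj hT1 hn hk1 hk2
  have hk0 : 0 < k := lt_of_lt_of_le (Nat.two_pow_pos T) hkK
  have hkn : k ≤ n := (Nat.le_mul_of_pos_left k (Nat.two_pow_pos T)).trans hk2
  have hTk : T ≤ k := hTT.le.trans hkK
  have hd0 : 0 < pd A j := by unfold pd; positivity
  have hH0 : 0 < pH A j := by unfold pH; positivity
  have hβ : 1 ≤ Nat.log 2 B := Nat.log_pos (by norm_num) hB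
  have hA2 : 1 ≤ A ^ 2 := Nat.one_le_pow _ _ hA
  have hlam := pLam_two (j := j) hA
  have hCC : pC A j ≤ j * A ^ 2 * pC A j := Nat.le_mul_of_pos_left _ (by positivity)
  have hC1 : 1 ≤ pC A j := by unfold pC; omega
  have hjA2 : j * A ≤ j * A ^ 2 * pC A j := by
    calc j * A = j * A ^ 1 * 1 := by ring
      _ ≤ j * A ^ 2 * pC A j := Nat.mul_le_mul
          (Nat.mul_le_mul_left _ (Nat.pow_le_pow_right hA (by norm_num))) hC1
  have hjAC : j * A * pC A j ≤ j * A ^ 2 * pC A j := by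
    refine Nat.mul_le_mul_right _ (Nat.mul_le_mul_left _ ?_)
    calc A = A ^ 1 := (pow_one A).symm
      _ ≤ A ^ 2 := Nat.pow_le_pow_right hA (by norm_num)
  have hjA0 : 0 < j * A := by positivity
  set β := Nat.log 2 B with hβd
  set r := pr A j k with hr
  set p := pp A n k with hp
  set l := pl A j k with hl
  set d := pd A j with hd
  set lam := pLam A j with hlamd
  set κ := kap r l with hκ
  -- l is large
  have hl6 : 6 ≤ l := by
    have h36 : 36 * d ≤ k := by
      have e1 : 12 * d * lam ≤ pC A j := by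
        unfold pC pBc
        rw [← hd, ← hlamd]
        omega
      have e2 : 36 * d ≤ 12 * d * lam := by
        calc 36 * d = 12 * d * 3 := by ring
          _ ≤ 12 * d * lam := Nat.mul_le_mul_left _ hlam
      omega
    rw [hl, pl, Nat.le_div_iff_mul_le (by positivity)]
    rw [← hd]
    omega
  have hr6 : r < (l + 1) * 6 := by
    have hrd : r * d ≤ k := Nat.div_mul_le_self _ _
    refine Nat.lt_of_mul_lt_mul_right (a := d) ?_
    calc r * d ≤ k := hrd
      _ < (l + 1) * (6 * d) := hl2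
      _ = (l + 1) * 6 * d := by ring
  obtain ⟨L, hL⟩ : ∃ L, L = 2 * l - 1 := ⟨_, rfl⟩
  rw [← hL]
  have hL1 : r + L ≤ 5 * L := by omega
  have hL2 : k ≤ 12 * d * L := by
    have e1 : k ≤ 12 * d * l := by nlinarith
    refine e1.trans (Nat.mul_le_mul_left _ ?_)
    omega
  -- the steps of a phase
  have hβT : T * β ≤ k := (Nat.mul_le_mul_right _ hTT.le).trans hBk
  have hc0 : 0 < A * (β + 1) := by positivity
  obtain ⟨t, ht⟩ : ∃ t, t = n / (A * (β + 1)) := ⟨_, rfl⟩
  have htn1 : t * (A * (β + 1)) ≤ n := by rw [ht]; exact Nat.div_mul_le_self _ _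
  have htn2 : n < t * (A * (β + 1)) + A * (β + 1) := by rw [ht]; exact Nat.lt_div_mul_add hc0
  have hAT : 2 * A ≤ T := by
    have : A ≤ j * A := Nat.le_mul_of_pos_left _ (by omega)
    omega
  have ht1 : 1 ≤ t := by
    rw [ht, Nat.le_div_iff_mul_le hc0]
    calc 1 * (A * (β + 1)) ≤ A * (2 * β) := by rw [one_mul]; exact Nat.mul_le_mul_left _ (by omega)
      _ = 2 * A * β := by ring
      _ ≤ T * β := Nat.mul_le_mul_right _ hAT
      _ ≤ n := hβT.trans hkn
  have hn4 : n ≤ 4 * A * β * t := by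
    have e1 : A * (β + 1) ≤ t * (A * (β + 1)) := Nat.le_mul_of_pos_left _ ht1
    have e2 : t * (A * (β + 1)) ≤ t * (A * (2 * β)) :=
      Nat.mul_le_mul_left _ (Nat.mul_le_mul_left _ (by omega))
    calc n ≤ 2 * (t * (A * (2 * β))) := by omega
      _ = 4 * A * β * t := by ring
  obtain ⟨m0, hm0⟩ : ∃ m0, m0 = D / t := ⟨_, rfl⟩
  have hm1 : m0 * t ≤ D := by rw [hm0]; exact Nat.div_mul_le_self _ _
  have hm2 : D < m0 * t + t := by rw [hm0]; exact Nat.lt_div_mul_add (by omega)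
  -- the number of phases
  have hK : T * m0 ≤ 4 * A * k := by
    have e1 : T * m0 * (β * t) ≤ 4 * A * k * (β * t) := by
      calc T * m0 * (β * t) = T * (m0 * t * β) := by ring
        _ ≤ 2 ^ T * (D * β) := Nat.mul_le_mul hTT.le (Nat.mul_le_mul_right _ hm1)
        _ ≤ n * k := hD
        _ ≤ 4 * A * β * t * k := Nat.mul_le_mul_right _ hn4
        _ = 4 * A * k * (β * t) := by ring
    exact Nat.le_of_mul_le_mul_right e1 (by positivity)
  -- the number of blocked places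
  obtain ⟨b, hb⟩ : ∃ b, b = pBc A j * n / k + 1 := ⟨_, rfl⟩
  have hb1 : pBc A j * n ≤ b * k := by
    have := Nat.lt_div_mul_add (a := pBc A j * n) hk0
    rw [hb]
    calc pBc A j * n ≤ pBc A j * n / k * k + k := this.le
      _ = (pBc A j * n / k + 1) * k := by ring
  have hb2 : b * k ≤ (pBc A j + 1) * n := by
    have := Nat.div_mul_le_self (pBc A j * n) k
    rw [hb]
    calc (pBc A j * n / k + 1) * k = pBc A j * n / k * k + k := by ring
      _ ≤ pBc A j * n + n := Nat.add_le_add this hkn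
      _ = (pBc A j + 1) * n := by ring
  obtain ⟨f, hf⟩ : ∃ f, f = n / (j * A) := ⟨_, rfl⟩
  have hf1 : j * A * f ≤ n := by
    rw [hf]
    exact Nat.mul_div_le _ _
  have hfn : f ≤ n := by
    rw [hf]
    exact Nat.div_le_self _ _
  have hbb : p * r + lam * f + p * L ≤ b * L := by
    refine Nat.le_of_mul_le_mul_right (c := k) ?_ hk0
    calc (p * r + lam * f + p * L) * k = p * k * (r + L) + lam * f * k := by ring
      _ ≤ 9 * A * n * (5 * L) + lam * n * (12 * d * L) :=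
          Nat.add_le_add (Nat.mul_le_mul hp2 hL1) (Nat.mul_le_mul (Nat.mul_le_mul_left _ hfn) hL2)
      _ = pBc A j * n * L := by unfold pBc; rw [← hd, ← hlamd]; ring
      _ ≤ b * k * L := Nat.mul_le_mul_right _ hb1
      _ = b * L * k := by ring
  -- the bound for `f`
  have hc24 : (24 * p + b) * k ≤ pC A j * n := by
    calc (24 * p + b) * k = 24 * (p * k) + b * k := by ring
      _ ≤ 24 * (9 * A * n) + (pBc A j + 1) * n := Nat.add_le_add (Nat.mul_le_mul_left _ hp2) hb2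
      _ = pC A j * n := by unfold pC; ring
  have hc12 : (12 * p + b) * k ≤ pC A j * n := by
    refine le_trans (Nat.mul_le_mul_right _ ?_) hc24
    omega
  have g1 : 4 * (j * A) * s ≤ n := by
    calc 4 * (j * A) * s ≤ 2 ^ T * s := Nat.mul_le_mul_right _ (by omega)
      _ ≤ n := hs
  have g2 : 4 * (j * A) * (12 * q) ≤ n := by
    calc 4 * (j * A) * (12 * q) = 48 * (j * A) * q := by ring
      _ ≤ 2 ^ T * q := Nat.mul_le_mul_right _ (by omega)
      _ ≤ n := hq
  have g3 : 4 * (j * A) * (m0 * (12 * p + b)) ≤ n := by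
    have e1 : 4 * (j * A) * (m0 * (12 * p + b)) * T ≤ n * T := by
      calc 4 * (j * A) * (m0 * (12 * p + b)) * T = 4 * (j * A) * (12 * p + b) * (T * m0) := by ring
        _ ≤ 4 * (j * A) * (12 * p + b) * (4 * A * k) := Nat.mul_le_mul_left _ hK
        _ = 16 * (j * A ^ 2) * ((12 * p + b) * k) := by ring
        _ ≤ 16 * (j * A ^ 2) * (pC A j * n) := Nat.mul_le_mul_left _ hc12
        _ = 16 * (j * A ^ 2 * pC A j) * n := by ring
        _ ≤ T * n := Nat.mul_le_mul_right _ (by omega)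
        _ = n * T := mul_comm _ _
    exact Nat.le_of_mul_le_mul_right e1 (by omega)
  have g4 : 4 * (j * A) * (24 * p + b) ≤ n := by
    have e1 : 4 * (j * A) * (24 * p + b) * pC A j ≤ n * pC A j := by
      calc 4 * (j * A) * (24 * p + b) * pC A j = 4 * (j * A * pC A j) * (24 * p + b) := by ring
        _ ≤ k * (24 * p + b) := Nat.mul_le_mul_right _ (by omega)
        _ = (24 * p + b) * k := mul_comm _ _
        _ ≤ pC A j * n := hc24
        _ = n * pC A j := mul_comm _ _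
    exact Nat.le_of_mul_le_mul_right e1 (by omega)
  have hff : s + (m0 + 1) * (κ * p + b) + κ * p + κ * q ≤ f := by
    have e1 : s + (m0 + 1) * (κ * p + b) + κ * p + κ * q ≤
        s + (m0 + 1) * (12 * p + b) + 12 * p + 12 * q := by
      have e2 : κ * p ≤ 12 * p := Nat.mul_le_mul_right _ hkap
      have e3 : κ * q ≤ 12 * q := Nat.mul_le_mul_right _ hkap
      have e4 : (m0 + 1) * (κ * p + b) ≤ (m0 + 1) * (12 * p + b) := Nat.mul_le_mul_left _ (by omega)
      omega
    refine e1.trans ?_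
    rw [hf, Nat.le_div_iff_mul_le hjA0]
    have e5 : 4 * ((s + (m0 + 1) * (12 * p + b) + 12 * p + 12 * q) * (j * A)) =
        4 * (j * A) * s + 4 * (j * A) * (12 * q) + 4 * (j * A) * (m0 * (12 * p + b)) +
          4 * (j * A) * (24 * p + b) := by ring
    omega
  refine ⟨t, m0 + 1, b, f, ht1, by omega, ?_, ?_, ?_, ?_, hf1, hbb, hff⟩
  · calc D ≤ m0 * t + t := hm2.le
      _ = (m0 + 1) * t := by ring
  · rw [Nat.le_div_iff_mul_le hH0]
    calc q * pH A j = pH A j * q := mul_comm _ _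
      _ ≤ 2 ^ T * q := Nat.mul_le_mul_right _
          ((Nat.le_mul_of_pos_right _ (by omega)).trans (hbH.trans hTT.le))
      _ ≤ n := hq
  · calc A * ((β + 1) * t) = t * (A * (β + 1)) := by ring
      _ ≤ n := htn1
  · calc t ≤ t * (A * (β + 1)) := Nat.le_mul_of_pos_right _ hc0
      _ ≤ n := htn1

end Pool.Agent.H78.UP
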