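import Pool.Agent.H78.UN.FIX
import Pool.Agent.H78.UN.CNT
import Pool.Agent.H78.UN2.CNT
import Pool.Agent.H78.UP.Main
import Pool.Agent.H79.UN.XN
import Pool.Agent.H79.UN.XP
import Pool.Agent.H79.UP.Play
import Pool.Agent.H79.UP.CNT
import Pool.Agent.H79.UP.ABP
import Pool.Agent.H22.UN2.FHX
import Pool.Agent.H22.UN2.XG

/-! Assembly of the main theorem for derivations with little persistent memory. -/

namespace Pool.Agent.H78.UP

open Pool.Agent.H78.UN Pool.Agent.H78.UN2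

theorem main : Pool.Agent.H79.UP.T_MAINP :=
  mainp_of
    (Pool.Agent.H79.UP.abp (Pool.Agent.H79.UP.advp fix) (Pool.Agent.H79.UP.cntp psc scc) cne sml
      Pool.Agent.H22.UN2.pf_HC Pool.Agent.H79.UN.xa
      Pool.Agent.H22.UN2.pf_XC Pool.Agent.H22.UN2.pf_XG Pool.Agent.H22.UN2.pf_FRM)
    bal

end Pool.Agent.H78.UP
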